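import Pool.Agent.Q82.QD.Stm

/-! VOL2 for project QD (MP_af5b7f_an): bounded volume. -/

set_option autoImplicit false

open MeasureTheory Filter Topology Real InnerProductSpace Laplacian Set
open Pool.Agent.Q82.QC (E)

namespace Pool.Agent.Q254.QD

open Pool.Agent.Q82.QD

theorem vol2 (_h1 : S_WL2) (h2 : S_WB2) (h3 : S_TH2) (h4 : S_RAT2) (h5 : S_BT) : S_VOL2 := by
  intro F a C hD
  have hP : Prof F := hD.1
  have ha : 0 < a := hD.2.1
  obtain ⟨C1, N0, hC1, hN0, hW⟩ := h2 F a C hD
  have hR := h4 F a ha (1 / 2) (by norm_num)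
  have hT := h3 a ha
  have hT' : ∀ᶠ N : ℝ in atTop, ∫ x in Metric.closedBall (0 : E) (5 / 3),
      (Real.exp (-(a * N ^ 10 * ‖x - x1‖ ^ 2)) + Real.exp (-N)) < 1 :=
    (tendsto_order.1 hT).2 1 one_pos
  refine ⟨mm F + C1, ?_⟩
  filter_upwards [hR, hT', eventually_ge_atTop N0] with N hR hT' hN
  have hNp : 0 < N := by linarith
  obtain ⟨hBi, hBm⟩ := (h5 F hP).1 N hNp
  set g : E → ℝ := fun x => Real.exp (-(a * N ^ 10 * ‖x - x1‖ ^ 2)) + Real.exp (-N) with hg
  have hgc : Continuous g := by
    rw [hg]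
    fun_prop
  have hgi : IntegrableOn g (Metric.closedBall (0 : E) (5 / 3)) :=
    hgc.continuousOn.integrableOn_compact (isCompact_closedBall _ _)
  have hsub : Metric.ball (0 : E) (3 / 2) ⊆ Metric.closedBall 0 (5 / 3) := fun x hx => by
    rw [Metric.mem_ball, dist_zero_right] at hx
    rw [Metric.mem_closedBall, dist_zero_right]
    linarith
  have hB0 : ∀ x, 0 ≤ B F N x := fun x => by
    unfold B
    positivity
  have hg0 : ∀ x, 0 ≤ g x := fun x => by
    rw [hg]
    positivity
  have hpt : ∀ x ∈ Metric.ball (0 : E) (3 / 2),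
      Real.exp (4 * W F a N x) ≤ B F N x + C1 * g x := by
    intro x hx
    have hx' := hsub hx
    rw [Metric.mem_closedBall, dist_zero_right] at hx'
    by_cases hc : 1 / N ^ 4 ≤ ‖x - x0‖
    · have e1 : Real.exp (4 * W F a N x) ≤ C1 * g x := (hW N hN x hx' hc).1
      have e2 := hB0 x
      linarith
    · push Not at hc
      have h6 := hR x (hc.le.trans (by gcongr; norm_num))
      have h7 := (abs_le.1 h6).1
      have h8 : 0 < Real.exp (4 * W F a N x) := Real.exp_pos _
      have h9 : 0 ≤ C1 * g x := mul_nonneg hC1.le (hg0 x)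
      linarith
  have hgi' : IntegrableOn (fun x => C1 * g x) (Metric.ball (0 : E) (3 / 2)) :=
    (hgi.mono_set hsub).const_mul C1
  calc ∫ x in Metric.ball (0 : E) (3 / 2), Real.exp (4 * W F a N x)
      ≤ ∫ x in Metric.ball (0 : E) (3 / 2), (B F N x + C1 * g x) := by
        refine integral_mono_of_nonneg ?_ ?_ ?_
        · exact Eventually.of_forall fun x => (Real.exp_pos _).le
        · exact hBi.integrableOn.add hgi'
        · exact (ae_restrict_iff' measurableSet_ball).2 (Eventually.of_forall hpt)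
    _ = (∫ x in Metric.ball (0 : E) (3 / 2), B F N x) +
          C1 * ∫ x in Metric.ball (0 : E) (3 / 2), g x := by
        rw [integral_add hBi.integrableOn hgi', integral_const_mul]
    _ ≤ mm F + C1 := by
        have e1 : ∫ x in Metric.ball (0 : E) (3 / 2), B F N x ≤ ∫ x, B F N x :=
          setIntegral_le_integral hBi (Eventually.of_forall hB0)
        have e2 : ∫ x in Metric.ball (0 : E) (3 / 2), g x ≤
            ∫ x in Metric.closedBall (0 : E) (5 / 3), g x :=
          setIntegral_mono_set hgi (Eventually.of_forall hg0) hsub.eventuallyLE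
        rw [hBm] at e1
        have e3 : C1 * ∫ x in Metric.ball (0 : E) (3 / 2), g x ≤ C1 * 1 :=
          mul_le_mul_of_nonneg_left (e2.trans hT'.le) hC1.le
        linarith

end Pool.Agent.Q254.QD

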